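import Pool.Agent.Helper79.GT.St3

/-!
# Project GT (MP_c2d095_lc), module GNM: stones and territory
-/

set_option autoImplicit false

namespace Pool.Agent.Helper64.GT

open Pool.Agent.Helper79.GT Pool.Agent.Helper79.GS Pool.Agent.Helper19.SK

private theorem area_eq {V : Type} [Finite V] (G : SimpleGraph V) (P : Pos V) (c : Bool) :
    area G P c = num P c + terr G P c := by
  have e : ({v | P v = some c ∨ Encl G P c v} : Set V) = {v | P v = some c} ∪ {v | Encl G P c v} :=
    rfl
  have d : Disjoint ({v | P v = some c} : Set V) {v | Encl G P c v} := by
    rw [Set.disjoint_left]
    intro v h1 h2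
    have h3 : P v = some c := h1
    have h4 : P v = none := h2.1
    rw [h3] at h4
    exact Option.some_ne_none c h4
  unfold area num terr
  rw [e]
  exact Set.ncard_union_eq d (Set.toFinite _) (Set.toFinite _)

theorem hGNM (hKSC : StKSC) : Pool.Agent.Helper79.GT.StGNM := by
  intro V _ G
  refine ⟨area_eq G, ?_⟩
  intro P e hk
  obtain ⟨k1, k2⟩ := hKSC V G P e hk
  obtain ⟨he, u, -, hu, hQ, -, -, -⟩ := hk
  have hu' : P u = some false := hu
  have hne : e ≠ u := by
    rintro rfl
    rw [he] at hu'
    exact Option.some_ne_none _ hu'.symm
  have q1 : play G P true e e = some true := by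
    rw [hQ, put_ne _ hne, put_same]
  have q2 : play G P true e u = none := by
    rw [hQ, put_same]
  have q3 : ∀ v, v ≠ e → v ≠ u → play G P true e v = P v := by
    intro v h1 h2
    rw [hQ, put_ne _ h2, put_ne _ h1]
  have s1 : ({v | play G P true e v = some true} : Set V) = insert e {v | P v = some true} := by
    ext v
    show play G P true e v = some true ↔ v = e ∨ P v = some true
    by_cases h1 : v = e
    · subst h1
      exact ⟨fun _ => Or.inl rfl, fun _ => q1⟩
    · by_cases h2 : v = u
      · subst h2
        constructor
        · intro h
          rw [q2] at h
          exact absurd h.symm (Option.some_ne_none _)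
        · rintro (h | h)
          · exact absurd h h1
          · rw [hu'] at h
            exact absurd h (by decide)
      · rw [q3 v h1 h2]
        exact ⟨Or.inr, fun h => h.resolve_left h1⟩
  have s2 : ({v | P v = some false} : Set V) = insert u {v | play G P true e v = some false} := by
    ext v
    show P v = some false ↔ v = u ∨ play G P true e v = some false
    by_cases h1 : v = u
    · subst h1
      exact ⟨fun _ => Or.inl rfl, fun _ => hu'⟩
    · by_cases h2 : v = e
      · subst h2
        constructor
        · intro h
          rw [he] at h
          exact absurd h.symm (Option.some_ne_none _)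
        · rintro (h | h)
          · exact absurd h h1
          · rw [q1] at h
            exact absurd h (by decide)
      · rw [q3 v h2 h1]
        exact ⟨Or.inr, fun h => h.resolve_left h1⟩
  have n1 : num (play G P true e) true = num P true + 1 := by
    unfold num
    rw [s1]
    refine Set.ncard_insert_of_notMem ?_ (Set.toFinite _)
    intro h
    have h' : P e = some true := h
    rw [he] at h'
    exact Option.some_ne_none _ h'.symm
  have n2 : num P false = num (play G P true e) false + 1 := by
    unfold num
    rw [s2]
    refine Set.ncard_insert_of_notMem ?_ (Set.toFinite _)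
    intro h
    have h' : play G P true e u = some false := h
    rw [q2] at h'
    exact Option.some_ne_none _ h'.symm
  have a1 := area_eq G P true
  have a2 := area_eq G P false
  have a3 := area_eq G (play G P true e) true
  have a4 := area_eq G (play G P true e) false
  refine ⟨n1, n2, ?_, ?_, k1, k2⟩
  · omega
  · omega

end Pool.Agent.Helper64.GT
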