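import Pool.Agent.Helper79.GT.St6

/-!
# Project GT (MP_c2d095_lc), module SZV: sizes
-/

set_option autoImplicit false

namespace Pool.Agent.Helper64.GT

open Pool.Agent.Helper79.GT Pool.Agent.Helper79.GS Pool.Agent.Helper19.SK Pool.Agent.Helper73.DC
open Finset

private theorem cmul {Y : ℕ} (hY : 2 ≤ Y) (c k a : ℕ) (hc : c ≤ 2 ^ k) : c * Y ^ a ≤ Y ^ (a + k) := by
  have h1 : 2 ^ k ≤ Y ^ k := Nat.pow_le_pow_left hY k
  calc c * Y ^ a ≤ Y ^ k * Y ^ a := Nat.mul_le_mul_right _ (hc.trans h1)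
    _ = Y ^ (a + k) := by rw [pow_add, mul_comm]

theorem hSZV : Pool.Agent.Helper79.GT.StSZV := by
  refine ⟨120, fun e he sk tc Sm w => ?_⟩
  obtain ⟨Y, hY⟩ : ∃ Y, Y = w.length + 2 := ⟨_, rfl⟩
  have hY2 : 2 ≤ Y := by omega
  have hY1 : 1 ≤ Y := by omega
  have mono : ∀ a b : ℕ, a ≤ b → Y ^ a ≤ Y ^ b := fun a b h => Nat.pow_le_pow_right hY1 h
  have hn : nV w ≤ w.length := by
    unfold nV
    exact (tL7 _ _).2.2.2
  have h3 : q3 w ≤ w.length := by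
    unfold q3
    exact (tL7 _ _).2.2.2
  have h4 : q4 w ≤ w.length := by
    unfold q4
    exact (tL7 _ _).2.2.2
  have hm : mV w + 1 ≤ Y := by
    unfold mV
    omega
  have hkb : kbV w ≤ Y := by
    unfold kbV
    omega
  have hkw : kwV w ≤ Y := by
    unfold kwV
    omega
  obtain ⟨n, hnn⟩ : ∃ n, n = nV w := ⟨_, rfl⟩
  rw [← hnn] at hn ⊢
  have hnY : n ≤ Y := by omega
  have hn2 : n * n ≤ Y ^ 2 := by
    rw [pow_two]
    exact Nat.mul_le_mul hnY hnY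
  have hn21 : n * n + 1 ≤ Y ^ 2 := by
    have : n + 1 ≤ Y := by omega
    have h5 : (n + 1) * (n + 1) ≤ Y * Y := Nat.mul_le_mul this this
    rw [pow_two]
    nlinarith
  -- the budget
  have hR0 : R0 w ≤ Y ^ 7 := by
    unfold R0
    rw [← hnn]
    have h5 : (n * n + 1) ^ 2 ≤ Y ^ 4 := by
      calc (n * n + 1) ^ 2 ≤ (Y ^ 2) ^ 2 := Nat.pow_le_pow_left hn21 2
        _ = Y ^ 4 := by rw [← pow_mul]
    have h6 : 3 * Y ^ 4 ≤ Y ^ 6 := cmul hY2 3 2 4 (by norm_num)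
    have h7 : 1 ≤ Y ^ 4 := Nat.one_le_pow _ _ hY1
    have h8 : 2 * (n * n + 1) ^ 2 + 1 ≤ Y ^ 6 := by omega
    calc (mV w + 1) * (2 * (n * n + 1) ^ 2 + 1) ≤ Y * Y ^ 6 := Nat.mul_le_mul hm h8
      _ = Y ^ 7 := by ring
  have hBB : BB w ≤ Y ^ 11 := by
    unfold BB
    rw [← hnn]
    have h6 : 3 * Y ^ 7 ≤ Y ^ 9 := cmul hY2 3 2 7 (by norm_num)
    have h7 : 1 ≤ Y ^ 7 := Nat.one_le_pow _ _ hY1
    have h8 : 2 * R0 w + 1 ≤ Y ^ 9 := by omega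
    calc (2 * R0 w + 1) * (n * n) ≤ Y ^ 9 * Y ^ 2 := Nat.mul_le_mul h8 hn2
      _ = Y ^ 11 := by rw [← pow_add]
  have hMM : MM w ≤ Y ^ 13 := by
    unfold MM
    have h6 : 3 * Y ^ 11 ≤ Y ^ 13 := cmul hY2 3 2 11 (by norm_num)
    have h7 : 1 ≤ Y ^ 11 := Nat.one_le_pow _ _ hY1
    omega
  have p1 : Y ≤ Y ^ 13 := by
    have := mono 1 13 (by norm_num)
    rwa [pow_one] at this
  have p2 : 2 * Y ^ 2 ≤ Y ^ 13 := (cmul hY2 2 1 2 (by norm_num)).trans (mono 3 13 (by norm_num))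
  have p8 : 8 ≤ Y ^ 13 := by
    calc 8 ≤ 2 ^ 13 := by norm_num
      _ ≤ Y ^ 13 := Nat.pow_le_pow_left hY2 13
  have hK : (goX sk tc e Sm).K w + 2 ≤ Y ^ 15 := by
    show 2 * (nV w * nV w) + MM w + 2 + 2 ≤ Y ^ 15
    rw [← hnn]
    have h6 : 3 * Y ^ 13 ≤ Y ^ 15 := cmul hY2 3 2 13 (by norm_num)
    omega
  have hS : (goX sk tc e Sm).S w ≤ Y ^ 18 := by
    show 4 * (2 * (nV w * nV w) + kbV w + kwV w + MM w + 8) ≤ Y ^ 18
    rw [← hnn]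
    have h6 : 20 * Y ^ 13 ≤ Y ^ 18 := cmul hY2 20 5 13 (by norm_num)
    omega
  have hR : (goX sk tc e Sm).R w ≤ Y ^ 8 := by
    show R0 w + 1 ≤ Y ^ 8
    have h6 : 2 * Y ^ 7 ≤ Y ^ 8 := cmul hY2 2 1 7 (by norm_num)
    have h7 : 1 ≤ Y ^ 7 := Nat.one_le_pow _ _ hY1
    omega
  have hL : 14 * Lam (goX sk tc e Sm) w ≤ Y ^ 40 := by
    unfold Lam
    have h5 : ((goX sk tc e Sm).K w + 2) ^ 2 ≤ Y ^ 30 := by
      calc ((goX sk tc e Sm).K w + 2) ^ 2 ≤ (Y ^ 15) ^ 2 := Nat.pow_le_pow_left hK 2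
        _ = Y ^ 30 := by rw [← pow_mul]
    have h6 : 490 * Y ^ 30 ≤ Y ^ 39 := cmul hY2 490 9 30 (by norm_num)
    have h7 : Y ^ 8 ≤ Y ^ 30 := mono 8 30 (by norm_num)
    have h8 : Y ^ 18 ≤ Y ^ 30 := mono 18 30 (by norm_num)
    have h9 : 16 ≤ Y ^ 30 := by
      calc 16 ≤ 2 ^ 30 := by norm_num
        _ ≤ Y ^ 30 := Nat.pow_le_pow_left hY2 30
    have h10 : Y ^ 39 ≤ Y ^ 40 := mono 39 40 (by norm_num)
    omega
  have hY3 : 2 * (n * n) ≤ Y ^ 3 :=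
    (Nat.mul_le_mul_left 2 hn2).trans (cmul hY2 2 1 2 (by norm_num))
  have hNN : 3 ^ (n * n) ≤ NN e w := by
    unfold NN
    rw [← hY]
    calc 3 ^ (n * n) ≤ 4 ^ (n * n) := Nat.pow_le_pow_left (by norm_num) _
      _ = 2 ^ (2 * (n * n)) := by
        have h4 : (4 : ℕ) = 2 ^ 2 := rfl
        rw [h4, ← pow_mul]
      _ ≤ Y ^ (2 * (n * n)) := Nat.pow_le_pow_left hY2 _
      _ ≤ Y ^ (Y ^ e) := mono _ _ (hY3.trans (mono 3 e (by omega)))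
  have hpw : ∀ p ≤ n * n, pw (NN e w) 3 p = 3 ^ p := by
    intro p hp
    unfold pw
    refine min_eq_left ?_
    have : 3 ^ p ≤ 3 ^ (n * n) := Nat.pow_le_pow_right (by norm_num) hp
    omega
  refine ⟨?_, hpw, ?_, hNN, ?_, hn⟩
  · calc (14 * Lam (goX sk tc e Sm) w) ^ 3 ≤ (Y ^ 40) ^ 3 := Nat.pow_le_pow_left hL 3
      _ = Y ^ 120 := by rw [← pow_mul]
      _ ≤ Y ^ e := mono _ _ he
      _ = (w.length + 2) ^ e := by rw [hY]
  · unfold PP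
    rw [← hnn]
    exact hpw _ le_rfl
  · have h5 : n * n ≤ w.length * w.length := Nat.mul_le_mul hn hn
    nlinarith [Nat.zero_le w.length, Nat.zero_le (w.length * w.length),
      Nat.zero_le (w.length * w.length * w.length)]

end Pool.Agent.Helper64.GT
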